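import Pool.Agent.Q234.PE.Stm

/-!
# Project PE (helper234), job TI: translation invariance. Author of this file: helper149.
-/

set_option autoImplicit false

open scoped BigOperators Matrix
open Finset Pool.Agent.TH235.PP Pool.Agent.Q234.PL

namespace Pool.Agent.Q149.PE.TI

open Pool.Agent.Q234.PE

/-- the translation of configurations -/
def T {L : ℕ} {K : Type} (u : Site L) : (Site L → K) ≃ (Site L → K) where
  toFun s := fun v => s (v + u)
  invFun s := fun v => s (v - u)
  left_inv s := by
    funext v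
    simp only
    rw [sub_add_cancel]
  right_inv s := by
    funext v
    simp only
    rw [add_sub_cancel_right]

theorem sh_add {R L : ℕ} (w u : Site L) (x : Fin R × Fin R) : sh w x + u = sh (w + u) x := by
  unfold sh
  ext
  · simp only [Prod.fst_add]
    ring
  · simp only [Prod.snd_add]
    ring

theorem term_T {d R : ℕ} (h : BoxOp d R) {L : ℕ} (w u : Site L) (s t : Site L → Fin d) :
    term h w (T u s) (T u t) = term h (w + u) s t := by
  classical
  unfold term
  have hiff : (∀ v, (∀ x : Fin R × Fin R, sh w x ≠ v) → (T u s) v = (T u t) v) ↔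
      (∀ v, (∀ x : Fin R × Fin R, sh (w + u) x ≠ v) → s v = t v) := by
    constructor
    · intro h1 v hv
      have h2 := h1 (v - u) (fun x hx => hv x (by rw [← sh_add, hx, sub_add_cancel]))
      simp only [T, Equiv.coe_fn_mk, sub_add_cancel] at h2
      exact h2
    · intro h1 v hv
      refine h1 (v + u) fun x hx => hv x ?_
      rw [← sh_add] at hx
      exact add_right_cancel hx
  have e1 : ∀ r : Site L → Fin d, (fun x => (T u r) (sh w x)) = fun x : Fin R × Fin R => r (sh (w + u) x) := by
    intro r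
    funext x
    rw [← sh_add]
    rfl
  by_cases hc : ∀ v, (∀ x : Fin R × Fin R, sh (w + u) x ≠ v) → s v = t v
  · rw [if_pos hc, if_pos (hiff.2 hc), e1, e1]
  · rw [if_neg hc, if_neg (fun h1 => hc (hiff.1 h1))]

theorem ham_T {d R : ℕ} (h : BoxOp d R) {L : ℕ} [NeZero L] (u : Site L) (s t : Site L → Fin d) :
    ham h L (T u s) (T u t) = ham h L s t := by
  unfold ham
  rw [Matrix.sum_apply, Matrix.sum_apply]
  simp only [term_T]
  exact Fintype.sum_equiv (Equiv.addRight u) _ _ fun w => rfl

theorem part1 (L : ℕ) [NeZero L] (lam Δ : ℝ) (Ψ : (Site L → Fin 2) → ℂ) (hn : normSq Ψ = 1)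
    (hg : IsGappedGround (ham (ising lam) L) Δ Ψ) (u : Site L) : ∃ c : ℂ, ‖c‖ = 1 ∧
      ∀ s : Site L → Fin 2, (Ψ fun v => s (v + u)) = c * Ψ s := by
  obtain ⟨E, hE, huniq, -⟩ := hg
  have h1 : (ham (ising lam) L).mulVec (fun s => Ψ (T u s)) = (E : ℂ) • fun s => Ψ (T u s) := by
    funext s
    have h2 : (ham (ising lam) L).mulVec (fun s => Ψ (T u s)) s = (ham (ising lam) L).mulVec Ψ (T u s) := by
      simp only [Matrix.mulVec, dotProduct]
      refine Fintype.sum_equiv (T u) _ _ fun t => ?_
      rw [ham_T]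
    rw [h2, hE]
    rfl
  obtain ⟨c, hc⟩ := huniq _ h1
  refine ⟨c, ?_, fun s => congrFun hc s⟩
  have h3 : normSq (fun s => Ψ (T u s)) = normSq Ψ := by
    unfold normSq
    exact Fintype.sum_equiv (T u) _ _ fun s => rfl
  have h4 : normSq (fun s => Ψ (T u s)) = ‖c‖ ^ 2 * normSq Ψ := by
    rw [hc]
    unfold normSq
    rw [Finset.mul_sum]
    refine Finset.sum_congr rfl fun s _ => ?_
    rw [Pi.smul_apply, smul_eq_mul, norm_mul, mul_pow]
  rw [h3, hn, mul_one] at h4
  have h5 := norm_nonneg c
  nlinarith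

theorem part2 (L D : ℕ) [NeZero L] (A : Pool.Agent.H4R2.Tensor 2 D) (u : Site L) (s : Site L → Fin 2) :
    (Pool.Agent.H4R2.contract A L fun v => s (v + u)) = Pool.Agent.H4R2.contract A L s := by
  unfold Pool.Agent.H4R2.contract
  symm
  refine Fintype.sum_equiv (T u) _ _ fun h => ?_
  refine Fintype.sum_equiv (T u) _ _ fun v => ?_
  symm
  refine Fintype.prod_equiv (Equiv.addRight u) _ _ fun x => ?_
  have e1 : ((x.1 - 1, x.2) : Site L) + u = ((x + u).1 - 1, (x + u).2) := by
    ext
    · simp only [Prod.fst_add]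
      ring
    · simp only [Prod.snd_add]
  have e2 : ((x.1, x.2 - 1) : Site L) + u = ((x + u).1, (x + u).2 - 1) := by
    ext
    · simp only [Prod.fst_add]
    · simp only [Prod.snd_add]
      ring
  simp only [T, Equiv.coe_fn_mk, Equiv.coe_addRight]
  rw [e1, e2]

theorem main : TransInv := ⟨fun L _ lam Δ Ψ hn hg u => part1 L lam Δ Ψ hn hg u, fun L D _ A u s => part2 L D A u s⟩

end Pool.Agent.Q149.PE.TI
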